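import Mathlib

/-!
# `33` is not a sum of four positive integers whose product is `p ^ 3 - p`
-/

namespace Pool.Agent.Results.MP_ae8880_nt.ThirtyThree

/-- `n = a + b + c + d` with positive integers `a, b, c, d` whose product is `p ^ 3 - p` for some
prime `p`. -/
def Representable (n : ℕ) : Prop :=
  ∃ a b c d p : ℕ, 0 < a ∧ 0 < b ∧ 0 < c ∧ 0 < d ∧ p.Prime ∧ n = a + b + c + d ∧
    a * b * c * d = p ^ 3 - p

/-- The values `p ^ 3 - p` for the primes `p < 17`. -/
def vals : List ℕ := [6, 24, 120, 336, 1320, 2184]

def good (v : ℕ) : Bool := !(vals.contains v) && decide (v < 4896)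

theorem check_aux : ((List.range 34).all fun a => (List.range 34).all fun b =>
    (List.range 34).all fun c => decide (33 ≤ a + b + c) || good (a * b * c * (33 - a - b - c)) ||
      decide (a * b * c = 0)) = true := by
  decide +kernel

theorem check (a b c : ℕ) (ha : a < 34) (hb : b < 34) (hc : c < 34) (h : a + b + c < 33)
    (h0 : a * b * c ≠ 0) : good (a * b * c * (33 - a - b - c)) = true := by
  have H := check_aux
  simp only [List.all_eq_true, List.mem_range, Bool.or_eq_true, decide_eq_true_eq] at H
  rcases H a ha b hb c hc with (h1 | h1) | h1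
  · omega
  · exact h1
  · exact absurd h1 h0

theorem not_rep : ¬ Representable 33 := by
  rintro ⟨a, b, c, d, p, ha, hb, hc, hd, hp, hs, hprod⟩
  have hg := check a b c (by omega) (by omega) (by omega) (by omega) (by positivity)
  have hdd : 33 - a - b - c = d := by omega
  rw [hdd, hprod] at hg
  simp only [good, Bool.and_eq_true, decide_eq_true_eq] at hg
  obtain ⟨hg1, h7⟩ := hg
  have hp17 : p < 17 := by
    by_contra hge
    push Not at hge
    have : 4896 ≤ p ^ 3 - p := by
      have h8 : 17 * 17 * p ≤ p ^ 3 := by nlinarith [mul_le_mul hge hge (by norm_num) (by omega)]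
      omega
    omega
  have key : ∀ p < 17, p.Prime → vals.contains (p ^ 3 - p) = true := by decide +kernel
  rw [key p hp17 hp] at hg1
  simp at hg1

/-- **Q1 fails**: the integer `33 > 8` is not representable. -/
theorem result : ¬ (∀ n : ℕ, 8 < n → Representable n) ∧ ¬ Representable 33 :=
  ⟨fun h => not_rep (h 33 (by norm_num)), not_rep⟩

end Pool.Agent.Results.MP_ae8880_nt.ThirtyThree
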